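import Mathlib

/-!
# GJ, Net: finitely many balls contain all integral roots of quadratic polynomials

For a finite extension `E` of `ℚ_p` the unit ball of `E` is compact, so the integral elements of the algebraic closure
of `ℚ_p` which are roots of a polynomial `X² - e₁ X + e₂` with integral coefficients in `E` are contained in finitely
many balls of a given radius.
-/

set_option autoImplicit false

namespace GJ

variable (p : ℕ) [hp : Fact p.Prime]

/-- The two roots of a quadratic polynomial. -/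
private theorem net_roots (c₁ c₂ : PadicAlgCl p) :
    ∃ z z' : PadicAlgCl p, ∀ x, x ^ 2 - c₁ * x + c₂ = (x - z) * (x - z') := by
  obtain ⟨z, hz⟩ := IsAlgClosed.exists_eq_mul_self (c₁ ^ 2 - 4 * c₂)
  have h2 : (2 : PadicAlgCl p) ≠ 0 := two_ne_zero
  refine ⟨(c₁ + z) / 2, (c₁ - z) / 2, fun x => ?_⟩
  have h1 : (x - (c₁ + z) / 2) * (x - (c₁ - z) / 2) = x ^ 2 - c₁ * x + (c₁ ^ 2 - z * z) / 4 := by
    ring
  rw [h1, ← hz]
  ring

theorem net (E : IntermediateField ℚ_[p] (PadicAlgCl p)) [FiniteDimensional ℚ_[p] E] (d : ℝ)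
    (hd : 0 < d) : ∃ Z : Finset (PadicAlgCl p), ∀ x : PadicAlgCl p, ‖x‖ ≤ 1 →
      (∃ e₁ ∈ E, ∃ e₂ ∈ E, ‖e₁‖ ≤ 1 ∧ ‖e₂‖ ≤ 1 ∧ x ^ 2 - e₁ * x + e₂ = 0) →
      ∃ z ∈ Z, ‖x - z‖ ≤ d := by
  classical
  have hprop : ProperSpace (Subalgebra.toSubmodule E.toSubalgebra) := by
    have : FiniteDimensional ℚ_[p] (Subalgebra.toSubmodule E.toSubalgebra) :=
      inferInstanceAs (FiniteDimensional ℚ_[p] E)
    exact FiniteDimensional.proper ℚ_[p] _
  have hcomp : IsCompact (Metric.closedBall (0 : Subalgebra.toSubmodule E.toSubalgebra) 1) :=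
    isCompact_closedBall _ _
  obtain ⟨t, -, htf, ht⟩ := hcomp.finite_cover_balls (e := d ^ 2) (by positivity)
  choose r r' hr using net_roots p
  refine ⟨(htf.toFinset ×ˢ htf.toFinset).image (fun c => r c.1 c.2) ∪
    (htf.toFinset ×ˢ htf.toFinset).image (fun c => r' c.1 c.2), fun x hx => ?_⟩
  rintro ⟨e₁, h₁, e₂, h₂, hn₁, hn₂, he⟩
  have key : ∀ e : PadicAlgCl p, e ∈ E → ‖e‖ ≤ 1 → ∃ c ∈ t, ‖e - (c : PadicAlgCl p)‖ < d ^ 2 := by
    intro e heE hen
    have h3 : (⟨e, heE⟩ : Subalgebra.toSubmodule E.toSubalgebra) ∈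
        Metric.closedBall (0 : Subalgebra.toSubmodule E.toSubalgebra) 1 := by
      rw [mem_closedBall_zero_iff]
      exact hen
    have h4 := ht h3
    simp only [Set.mem_iUnion, Metric.mem_ball, exists_prop] at h4
    obtain ⟨c, hc, hcd⟩ := h4
    refine ⟨c, hc, ?_⟩
    rw [dist_eq_norm] at hcd
    exact hcd
  obtain ⟨c₁, hc₁, hd₁⟩ := key e₁ h₁ hn₁
  obtain ⟨c₂, hc₂, hd₂⟩ := key e₂ h₂ hn₂
  have h5 : (x - r c₁ c₂) * (x - r' c₁ c₂) = (e₁ - c₁) * x + -(e₂ - c₂) := by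
    rw [← hr]
    linear_combination he
  have h6 : ‖x - r c₁ c₂‖ * ‖x - r' c₁ c₂‖ ≤ d ^ 2 := by
    rw [← norm_mul, h5]
    refine (IsUltrametricDist.norm_add_le_max _ _).trans (max_le ?_ ?_)
    · rw [norm_mul]
      calc ‖e₁ - (c₁ : PadicAlgCl p)‖ * ‖x‖ ≤ d ^ 2 * 1 :=
            mul_le_mul hd₁.le hx (norm_nonneg _) (by positivity)
        _ = d ^ 2 := mul_one _
    · rw [norm_neg]
      exact hd₂.le
  rcases le_or_gt ‖x - r c₁ c₂‖ d with h7 | h7
  · refine ⟨r c₁ c₂, ?_, h7⟩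
    rw [Finset.mem_union]
    left
    rw [Finset.mem_image]
    exact ⟨(c₁, c₂), by simp [hc₁, hc₂], rfl⟩
  · refine ⟨r' c₁ c₂, ?_, ?_⟩
    · rw [Finset.mem_union]
      right
      rw [Finset.mem_image]
      exact ⟨(c₁, c₂), by simp [hc₁, hc₂], rfl⟩
    · by_contra h8
      push Not at h8
      nlinarith

/-- The elements fixed by all automorphisms over `E` are in `E`. -/
theorem fix_mem (E : IntermediateField ℚ_[p] (PadicAlgCl p)) (x : PadicAlgCl p)
    (h : ∀ s : PadicAlgCl p ≃ₐ[ℚ_[p]] PadicAlgCl p, (∀ e ∈ E, s e = e) → s x = x) : x ∈ E := by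
  rw [← InfiniteGalois.fixedField_fixingSubgroup E, IntermediateField.mem_fixedField_iff]
  intro s hs
  exact h s fun e he => (IntermediateField.mem_fixingSubgroup_iff E s).1 hs e he

end GJ
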