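import Pool.Agent.H88.GJ.CoreA
import Pool.Agent.H84.GJ.Net

/-!
# GJ, Color: finitely many colours

The points `T n` whose abscissae are integral roots of quadratic polynomials over a finite extension of `ℚ_p` are
coloured with finitely many colours: the centre of the ball of radius `1/p` which contains the abscissa, and the sign
of the ordinate.
-/

set_option autoImplicit false

namespace GJ

open Polynomial HK

variable {p : ℕ} [hp : Fact p.Prime] {ι : AK →+* PadicAlgCl p} {v : Valuation AK NNReal}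

/-- congruent points have congruent values of a product of linear factors -/
private theorem color_prod {m : ℕ} (b : Fin m → PadicAlgCl p) (hb : ∀ i, ‖b i‖ ≤ 1)
    {x z : PadicAlgCl p} (hx : ‖x‖ ≤ 1) (hz : ‖z‖ ≤ 1) (hxz : ‖x - z‖ < 1) :
    ‖∏ i, (x - b i) - ∏ i, (z - b i)‖ < 1 := by
  classical
  have key : ∀ s : Finset (Fin m), ‖∏ i ∈ s, (x - b i) - ∏ i ∈ s, (z - b i)‖ < 1 ∧
      ‖∏ i ∈ s, (z - b i)‖ ≤ 1 := by
    intro s
    induction s using Finset.induction_on with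
    | empty =>
      simp
    | insert i s hi ih =>
      rw [Finset.prod_insert hi, Finset.prod_insert hi]
      have h1 : ‖x - b i‖ ≤ 1 := (na_sub _ _).trans (max_le hx (hb i))
      have h2 : ‖z - b i‖ ≤ 1 := (na_sub _ _).trans (max_le hz (hb i))
      constructor
      · have e : (x - b i) * ∏ i ∈ s, (x - b i) - (z - b i) * ∏ i ∈ s, (z - b i) =
            (x - b i) * (∏ i ∈ s, (x - b i) - ∏ i ∈ s, (z - b i)) +
              (x - z) * ∏ i ∈ s, (z - b i) := by ring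
        rw [e]
        refine lt_of_le_of_lt (na _ _) (max_lt ?_ ?_)
        · rw [norm_mul]
          calc ‖x - b i‖ * ‖∏ i ∈ s, (x - b i) - ∏ i ∈ s, (z - b i)‖
              ≤ 1 * ‖∏ i ∈ s, (x - b i) - ∏ i ∈ s, (z - b i)‖ :=
                mul_le_mul_of_nonneg_right h1 (norm_nonneg _)
            _ < 1 := by rw [one_mul]; exact ih.1
        · rw [norm_mul]
          calc ‖x - z‖ * ‖∏ i ∈ s, (z - b i)‖ ≤ ‖x - z‖ * 1 :=
                mul_le_mul_of_nonneg_left ih.2 (norm_nonneg _)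
            _ < 1 := by rw [mul_one]; exact hxz
      · rw [norm_mul]
        exact mul_le_one₀ h2 (norm_nonneg _) ih.2
  exact (key Finset.univ).1

theorem color (hv : IsVal p ι v) (h3 : 3 ≤ p) {g : ℕ} {a : Fin (2 * g + 1) → AK}
    (ha : ∀ i, v (a i) ≤ 1) (E : IntermediateField ℚ_[p] (PadicAlgCl p))
    [FiniteDimensional ℚ_[p] E] (T : ℕ → AK × AK) (hT : ∀ n, (T n).2 ^ 2 = (FF a).eval (T n).1)
    (h1 : ∀ n, v (T n).1 ≤ 1) (hu : ∀ n, v (T n).2 = 1)
    (hE : ∀ n, ∃ e1 ∈ E, ∃ e2 ∈ E, ‖e1‖ ≤ 1 ∧ ‖e2‖ ≤ 1 ∧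
      ι (T n).1 ^ 2 - e1 * ι (T n).1 + e2 = 0) :
    ∃ (κ : Type) (_ : Finite κ) (f : ℕ → κ), ∀ n m, f n = f m →
      ‖ι ((T n).1 - (T m).1)‖ ≤ (p : ℝ)⁻¹ ∧ v ((T n).2 - (T m).2) < 1 := by
  classical
  have hp0 : (0 : ℝ) < p := EC.p_pos p
  have hp1 : (p : ℝ)⁻¹ < 1 := inv_lt_one_of_one_lt₀ (EC.one_lt_p p)
  obtain ⟨Z, hZ⟩ := net p E (p : ℝ)⁻¹ (inv_pos.2 hp0)
  have hx : ∀ n, ‖ι (T n).1‖ ≤ 1 := fun n => (val_le_one hv).1 (h1 n)
  choose z hzZ hz using fun n => hZ (ι (T n).1) (hx n) (hE n)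
  have hb : ∀ i, ‖ι (a i)‖ ≤ 1 := fun i => (val_le_one hv).1 (ha i)
  choose η hη using fun w : PadicAlgCl p => IsAlgClosed.exists_eq_mul_self (∏ i, (w - ι (a i)))
  -- the ordinate is congruent to one of the two roots
  have hy : ∀ n, ‖(ι (T n).2 - η (z n)) * (ι (T n).2 + η (z n))‖ < 1 := by
    intro n
    have hzn : ‖z n‖ ≤ 1 := by
      have h4 := na_sub (ι (T n).1) (ι (T n).1 - z n)
      rw [sub_sub_cancel] at h4
      exact h4.trans (max_le (hx n) ((hz n).trans hp1.le))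
    have h5 := color_prod (fun i => ι (a i)) hb (hx n) hzn ((hz n).trans_lt hp1)
    have h6 : (ι (T n).2 - η (z n)) * (ι (T n).2 + η (z n)) =
        ∏ i, (ι (T n).1 - ι (a i)) - ∏ i, (z n - ι (a i)) := by
      rw [hη (z n)]
      have h7 : ι (T n).2 ^ 2 = ∏ i, (ι (T n).1 - ι (a i)) := by
        rw [← map_pow, hT n]
        unfold FF
        rw [eval_prod, map_prod]
        refine Finset.prod_congr rfl fun i _ => ?_
        rw [eval_sub, eval_X, eval_C, map_sub]
      rw [← h7]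
      ring
    rw [h6]
    exact h5
  refine ⟨{x // x ∈ Z} × Bool, inferInstance,
    fun n => (⟨z n, hzZ n⟩, decide (‖ι (T n).2 - η (z n)‖ < 1)), fun n m hnm => ?_⟩
  have hzz : z n = z m := congrArg (fun x : {x // x ∈ Z} × Bool => (x.1 : PadicAlgCl p)) hnm
  have hbit : (‖ι (T n).2 - η (z n)‖ < 1) ↔ (‖ι (T m).2 - η (z m)‖ < 1) :=
    decide_eq_decide.1 (congrArg (fun x : {x // x ∈ Z} × Bool => x.2) hnm)
  have hdist : ∀ x y w : PadicAlgCl p, x - y = (x - w) - (y - w) := fun x y w => by ring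
  constructor
  · rw [map_sub, hdist _ _ (z n)]
    refine (na_sub _ _).trans (max_le (hz n) ?_)
    rw [hzz]
    exact hz m
  · rw [val_lt_one hv, map_sub]
    by_cases hc : ‖ι (T n).2 - η (z n)‖ < 1
    · rw [hdist _ _ (η (z n))]
      refine lt_of_le_of_lt (na_sub _ _) (max_lt hc ?_)
      rw [hzz]
      exact hbit.1 hc
    · have hc' : ¬ ‖ι (T m).2 - η (z m)‖ < 1 := fun h => hc (hbit.2 h)
      have hplus : ∀ k, ¬ ‖ι (T k).2 - η (z k)‖ < 1 → ‖ι (T k).2 + η (z k)‖ < 1 := by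
        intro k hk
        rw [not_lt] at hk
        have h8 := hy k
        rw [norm_mul] at h8
        by_contra h9
        rw [not_lt] at h9
        nlinarith
      have e : ι (T n).2 - ι (T m).2 = (ι (T n).2 + η (z n)) - (ι (T m).2 + η (z n)) := by ring
      rw [e]
      refine lt_of_le_of_lt (na_sub _ _) (max_lt (hplus n hc) ?_)
      rw [hzz]
      exact hplus m hc'

end GJ
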