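import Mathlib

/-!
# GJ, Fro: Galois conjugates with another reduction

An integral element of the algebraic closure of `ℚ_p` whose reduction is not in `𝔽_p` has a conjugate with
another reduction.
-/

set_option autoImplicit false

namespace GJ

open Polynomial

variable (p : ℕ) [hp : Fact p.Prime]

theorem norm_gal (s : PadicAlgCl p ≃ₐ[ℚ_[p]] PadicAlgCl p) (x : PadicAlgCl p) : ‖s x‖ = ‖x‖ :=
  (spectralNorm_eq_of_equiv s x).symm

/-- The norm of the value of an integral polynomial at an integral point. -/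
private theorem fro_aeval_le (F : ℤ_[p][X]) (x : PadicAlgCl p) (hx : ‖x‖ ≤ 1) (r : ℝ) (hr : 0 ≤ r)
    (hF : ∀ n, ‖F.coeff n‖ ≤ r) :
    ‖(F.map (algebraMap ℤ_[p] ℚ_[p])).aeval x‖ ≤ r := by
  rw [aeval_eq_sum_range]
  refine IsUltrametricDist.norm_sum_le_of_forall_le_of_nonneg hr fun i _ => ?_
  rw [norm_smul, coeff_map, norm_pow]
  have h1 : ‖algebraMap ℤ_[p] ℚ_[p] (F.coeff i)‖ ≤ r := by
    refine le_trans (le_of_eq ?_) (hF i)
    rfl
  calc ‖algebraMap ℤ_[p] ℚ_[p] (F.coeff i)‖ * ‖x‖ ^ i ≤ r * 1 :=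
        mul_le_mul h1 (pow_le_one₀ (norm_nonneg _) hx) (by positivity) hr
    _ = r := mul_one r

theorem fro (x : PadicAlgCl p) (hx : ‖x‖ ≤ 1) (h : ‖x ^ p - x‖ = 1) :
    ∃ s : PadicAlgCl p ≃ₐ[ℚ_[p]] PadicAlgCl p, ‖s x - x‖ = 1 := by
  have halg : IsIntegral ℚ_[p] x := Algebra.IsIntegral.isIntegral x
  have hmon : (minpoly ℚ_[p] x).Monic := minpoly.monic halg
  -- the minimal polynomial has integral coefficients
  have hco : ∀ n, ‖(minpoly ℚ_[p] x).coeff n‖ ≤ 1 := by
    rw [← spectralValue_le_one_iff hmon]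
    exact hx
  obtain ⟨F, hF⟩ : ∃ F : ℤ_[p][X], F.map (algebraMap ℤ_[p] ℚ_[p]) = minpoly ℚ_[p] x := by
    have h1 : minpoly ℚ_[p] x ∈ lifts (algebraMap ℤ_[p] ℚ_[p]) := by
      rw [lifts_iff_coeff_lifts]
      exact fun n => ⟨⟨_, hco n⟩, rfl⟩
    exact (mem_lifts _).1 h1
  -- Frobenius
  set G : ℤ_[p][X] := expand ℤ_[p] p F - F ^ p with hG
  have hG0 : G.map (PadicInt.toZMod (p := p)) = 0 := by
    rw [hG, Polynomial.map_sub, map_expand, Polynomial.map_pow, ZMod.expand_card, sub_self]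
  have hGn : ∀ n, ‖G.coeff n‖ ≤ (p : ℝ)⁻¹ := by
    intro n
    have h1 : PadicInt.toZMod (p := p) (G.coeff n) = 0 := by
      rw [← coeff_map, hG0, coeff_zero]
    have h2 : G.coeff n ∈ IsLocalRing.maximalIdeal ℤ_[p] := by
      rw [← PadicInt.ker_toZMod]
      exact h1
    rw [PadicInt.maximalIdeal_eq_span_p] at h2
    have h3 := (PadicInt.norm_le_pow_iff_mem_span_pow (G.coeff n) 1).2 (by rwa [pow_one])
    refine h3.trans (le_of_eq ?_)
    norm_num
  have hp1 : (1 : ℝ) < p := by exact_mod_cast hp.out.one_lt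
  have hlt : ‖(minpoly ℚ_[p] x).aeval (x ^ p)‖ < 1 := by
    have h1 := fro_aeval_le p G x hx (p : ℝ)⁻¹ (by positivity) hGn
    have h2 : (G.map (algebraMap ℤ_[p] ℚ_[p])).aeval x = (minpoly ℚ_[p] x).aeval (x ^ p) := by
      rw [hG, Polynomial.map_sub, map_expand, Polynomial.map_pow, hF, map_sub, map_pow,
        minpoly.aeval, zero_pow hp.out.ne_zero, sub_zero, expand_aeval]
    rw [h2] at h1
    exact h1.trans_lt (inv_lt_one_of_one_lt₀ hp1)
  -- a root near x ^ p
  obtain ⟨y, hy, hxy⟩ : ∃ y ∈ ((minpoly ℚ_[p] x).map (algebraMap ℚ_[p] (PadicAlgCl p))).roots,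
      ‖x ^ p - y‖ < 1 := by
    by_contra hcon
    push Not at hcon
    have h1 : ((minpoly ℚ_[p] x).map (algebraMap ℚ_[p] (PadicAlgCl p))).eval (x ^ p) =
        (((minpoly ℚ_[p] x).map (algebraMap ℚ_[p] (PadicAlgCl p))).roots.map
          fun y => x ^ p - y).prod := by
      have h2 := (IsAlgClosed.splits ((minpoly ℚ_[p] x).map
        (algebraMap ℚ_[p] (PadicAlgCl p)))).eq_prod_roots_of_monic (hmon.map _)
      conv_lhs => rw [h2]
      rw [eval_multiset_prod, Multiset.map_map]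
      simp
    rw [eval_map_algebraMap] at h1
    rw [h1] at hlt
    have h3 : ∀ s : Multiset (PadicAlgCl p), (∀ y ∈ s, 1 ≤ ‖x ^ p - y‖) →
        1 ≤ ‖(s.map fun y => x ^ p - y).prod‖ := by
      intro s
      induction s using Multiset.induction_on with
      | empty => intro _; simp
      | cons z s ih =>
        intro hs
        rw [Multiset.map_cons, Multiset.prod_cons, norm_mul]
        have ha := hs z (Multiset.mem_cons_self _ _)
        have hb := ih fun y hy => hs y (Multiset.mem_cons_of_mem hy)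
        nlinarith
    exact absurd hlt (not_lt.2 (h3 _ hcon))
  have hroot : (minpoly ℚ_[p] x).aeval y = 0 := by
    have := (mem_roots'.1 hy).2
    rwa [IsRoot, eval_map_algebraMap] at this
  obtain ⟨s, hs⟩ := minpoly.exists_algEquiv_of_root' halg.isAlgebraic hroot
  refine ⟨s, ?_⟩
  rw [hs]
  have h4 : y - x = (x ^ p - x) + -(x ^ p - y) := by ring
  rw [h4]
  have h5 : ‖x ^ p - x‖ ≠ ‖-(x ^ p - y)‖ := by
    rw [norm_neg, h]
    exact hxy.ne'
  rw [IsUltrametricDist.norm_add_eq_max_of_norm_ne_norm h5, norm_neg, h, max_eq_left hxy.le]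

end GJ
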