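import Mathlib

/-!
# GJ, Loc: the power series part of the main lemma

`Pr v A N r`: the coefficients of `A` of index `< N` have value `< r` and the coefficient of index `N` has value `r`.
Multiplication by an integral power series with constant coefficient of value `1` does not change this.
-/

set_option autoImplicit false

namespace GJ

open PowerSeries

variable {K : Type*} [Field K] {Γ : Type*} [LinearOrderedCommGroupWithZero Γ] (v : Valuation K Γ)

/-- The coefficients of index `< N` have value `< r`, the coefficient of index `N` has value `r`. -/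
def Pr (A : PowerSeries K) (N : ℕ) (r : Γ) : Prop :=
  (∀ n < N, v (coeff n A) < r) ∧ v (coeff N A) = r

variable {v}

private theorem loc_sum (A B : PowerSeries K) (n : ℕ) : coeff n (A * B) =
    coeff n A * coeff 0 B + ∑ i ∈ Finset.range n, coeff i A * coeff (n - i) B := by
  rw [coeff_mul, Finset.Nat.sum_antidiagonal_eq_sum_range_succ_mk, Finset.sum_range_succ,
    Nat.sub_self, add_comm]

private theorem loc_small {A B : PowerSeries K} {N : ℕ} {r : Γ} (hr : r ≠ 0)
    (hB : ∀ n, v (coeff n B) ≤ 1) (n : ℕ) (h : ∀ i < n, v (coeff i A) < r) :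
    v (∑ i ∈ Finset.range n, coeff i A * coeff (n - i) B) < r := by
  refine v.map_sum_lt hr fun i hi => ?_
  rw [map_mul]
  calc v (coeff i A) * v (coeff (n - i) B) ≤ v (coeff i A) * 1 := mul_le_mul_right (hB _) _
    _ < r := by rw [mul_one]; exact h i (Finset.mem_range.1 hi)

/-- Multiplication by a unit. -/
theorem pr_mul {A B : PowerSeries K} {N : ℕ} {r : Γ} (hr : r ≠ 0)
    (hB : ∀ n, v (coeff n B) ≤ 1) (hB0 : v (coeff 0 B) = 1) : Pr v (A * B) N r ↔ Pr v A N r := by
  constructor
  · rintro ⟨h1, h2⟩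
    have h3 : ∀ n, n < N → v (coeff n A) < r := by
      intro n
      induction n using Nat.strong_induction_on with
      | _ n ih =>
        intro hn
        have h4 := loc_small (N := N) hr hB n fun i hi => ih i hi (hi.trans hn)
        have h5 : coeff n A * coeff 0 B = coeff n (A * B) -
            ∑ i ∈ Finset.range n, coeff i A * coeff (n - i) B := by
          rw [loc_sum]
          ring
        have h6 : v (coeff n A * coeff 0 B) < r := by
          rw [h5]
          exact v.map_sub_lt (h1 n hn) h4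
        rwa [map_mul, hB0, mul_one] at h6
    refine ⟨h3, ?_⟩
    have h4 := loc_small (N := N) hr hB N h3
    have h5 : coeff N A * coeff 0 B = coeff N (A * B) -
        ∑ i ∈ Finset.range N, coeff i A * coeff (N - i) B := by
      rw [loc_sum]
      ring
    have h6 : v (coeff N A * coeff 0 B) = r := by
      rw [h5, Valuation.map_sub_eq_of_lt_left _ (by rw [h2]; exact h4), h2]
    rwa [map_mul, hB0, mul_one] at h6
  · rintro ⟨h1, h2⟩
    refine ⟨fun n hn => ?_, ?_⟩
    · rw [loc_sum]
      refine v.map_add_lt ?_ (loc_small (N := N) hr hB n fun i hi => h1 i (hi.trans hn))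
      rw [map_mul, hB0, mul_one]
      exact h1 n hn
    · rw [loc_sum, Valuation.map_add_eq_of_lt_left, map_mul, hB0, mul_one, h2]
      rw [map_mul, hB0, mul_one, h2]
      exact loc_small (N := N) hr hB N h1

private theorem loc_nat (v : Valuation K Γ) (m : ℕ) : v (m : K) ≤ 1 := by
  induction m with
  | zero => rw [Nat.cast_zero, map_zero]; exact zero_le_one
  | succ m ih =>
    rw [Nat.cast_succ]
    exact v.map_add_le ih (map_one v).le

/-- The coefficients of `(X - π) ^ M`. -/
private theorem loc_binom (π : K) (M : ℕ) (n : ℕ) : coeff n ((X - C π : PowerSeries K) ^ M) =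
    (-π) ^ (M - n) * (M.choose n : K) := by
  have h1 : (X - C π : PowerSeries K) ^ M = (((Polynomial.X + Polynomial.C (-π)) ^ M :
      Polynomial K) : PowerSeries K) := by
    rw [Polynomial.coe_pow, Polynomial.coe_add, Polynomial.coe_X, Polynomial.coe_C, map_neg,
      sub_eq_add_neg]
  rw [h1, Polynomial.coeff_coe, Polynomial.coeff_X_add_C_pow]

theorem pr_binom {π : K} {M : ℕ} (hM : 0 < M) (hπ : π ≠ 0) (hMK : (M : K) ≠ 0)
    (hj : ∀ j : ℕ, 2 ≤ j → v π ^ (j - 1) < v (j : K)) :
    Pr v ((X - C π : PowerSeries K) ^ M) (M - 1) (v ((M : K) * π)) := by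
  have hπ0 : v π ≠ 0 := (Valuation.ne_zero_iff v).2 hπ
  have hM0 : v (M : K) ≠ 0 := (Valuation.ne_zero_iff v).2 hMK
  constructor
  · intro n hn
    rw [loc_binom]
    obtain ⟨j, hj2, hjM⟩ : ∃ j, 2 ≤ j ∧ M = n + j := ⟨M - n, by omega, by omega⟩
    have e1 : M - n = j := by omega
    have e2 : (M.choose n : K) * (j : K) = (M : K) * ((M - 1).choose n : K) := by
      have h1 : M.choose n * (M - n) = M * (M - 1).choose n := by
        obtain ⟨M', rfl⟩ : ∃ M', M = M' + 1 := ⟨M - 1, by omega⟩
        rw [Nat.add_sub_cancel, ← Nat.choose_mul_succ_eq, mul_comm]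
      rw [e1] at h1
      have h2 := congrArg (Nat.cast : ℕ → K) h1
      rwa [Nat.cast_mul, Nat.cast_mul] at h2
    have hvj : v (j : K) ≠ 0 := by
      intro h0
      have := hj j hj2
      rw [h0] at this
      exact not_lt_zero this
    have h3 : v (M.choose n : K) * v (j : K) ≤ v (M : K) := by
      rw [← map_mul, e2, map_mul]
      calc v (M : K) * v ((M - 1).choose n : K) ≤ v (M : K) * 1 :=
            mul_le_mul_right (loc_nat v _) _
        _ = v (M : K) := mul_one _
    rw [e1, map_mul, map_pow, Valuation.map_neg, map_mul]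
    obtain ⟨i, rfl⟩ : ∃ i, j = i + 1 := ⟨j - 1, by omega⟩
    have h4 := hj (i + 1) hj2
    rw [Nat.add_sub_cancel] at h4
    -- v π ^ (i+1) * v (choose) < v M * v π
    have h5 : v π ^ i * v (M.choose n : K) < v (M : K) := by
      rcases eq_or_ne (v (M.choose n : K)) 0 with h0 | h0
      · rw [h0, mul_zero]
        exact zero_lt_iff.2 hM0
      · calc v π ^ i * v (M.choose n : K) < v ((i + 1 : ℕ) : K) * v (M.choose n : K) :=
              mul_lt_mul_of_pos_right h4 (zero_lt_iff.2 h0)
          _ = v (M.choose n : K) * v ((i + 1 : ℕ) : K) := mul_comm _ _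
          _ ≤ v (M : K) := h3
    calc v π ^ (i + 1) * v (M.choose n : K) = (v π ^ i * v (M.choose n : K)) * v π := by
          rw [pow_succ, mul_assoc, mul_comm (v π), ← mul_assoc]
      _ < v (M : K) * v π := mul_lt_mul_of_pos_right h5 (zero_lt_iff.2 hπ0)
  · rw [loc_binom, show M - (M - 1) = 1 by omega, pow_one, map_mul, Valuation.map_neg, map_mul,
      mul_comm]
    congr 2
    have h1 := Nat.choose_symm (show 1 ≤ M by omega)
    rw [h1, Nat.choose_one_right]

/-- The power series part of the main lemma. -/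
theorem loc (U W Y V : PowerSeries K) (π : K) (M : ℕ) (hM : 0 < M) (hπ : π ≠ 0)
    (hMK : (M : K) ≠ 0) (hj : ∀ j : ℕ, 2 ≤ j → v π ^ (j - 1) < v (j : K)) (h2 : v 2 = 1)
    (hY : ∀ n, v (coeff n Y) ≤ 1) (hY0 : v (coeff 0 Y) = 1) (hV : ∀ n, v (coeff n V) ≤ 1)
    (hV0 : v (coeff 0 V) = 1) (hW : ∀ n, v (coeff n W) < 1) (hU : ∀ n, v (coeff n U) ≤ 1)
    (hUM : v (coeff M U) = 1) (hX : ∀ n < M, coeff n (U - W * Y) = 0)
    (hprod : (U + W * Y) * (U - W * Y) = X ^ M * (X - C π) ^ M * V) :
    Pr v W (M - 1) (v ((M : K) * π)) := by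
  have hr : v ((M : K) * π) ≠ 0 := (Valuation.ne_zero_iff v).2 (mul_ne_zero hMK hπ)
  have hWY : ∀ n, v (coeff n (W * Y)) < 1 := by
    intro n
    rw [loc_sum]
    refine v.map_add_lt ?_ (loc_small (N := n) one_ne_zero hY n fun i _ => hW i)
    rw [map_mul, hY0, mul_one]
    exact hW n
  -- the quotient `s = (U - W Y) / X ^ M`
  obtain ⟨s, hs⟩ := PowerSeries.X_pow_dvd_iff.2 hX
  have hs1 : ∀ n, v (coeff n s) ≤ 1 := by
    intro n
    have h1 : coeff n s = coeff (n + M) (U - W * Y) := by
      rw [hs, mul_comm, coeff_mul_X_pow]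
    rw [h1, map_sub]
    exact v.map_sub_le (hU _) (hWY _).le
  have hs0 : v (coeff 0 s) = 1 := by
    have h1 : coeff 0 s = coeff (0 + M) (U - W * Y) := by
      rw [hs, mul_comm, coeff_mul_X_pow]
    rw [h1, zero_add, map_sub, Valuation.map_sub_eq_of_lt_left _ (by rw [hUM]; exact hWY M), hUM]
  have h3 : (U + W * Y) * s = (X - C π) ^ M * V := by
    have h4 : (X : PowerSeries K) ^ M ≠ 0 := pow_ne_zero _ X_ne_zero
    refine mul_left_cancel₀ h4 ?_
    rw [hs] at hprod
    calc (X : PowerSeries K) ^ M * ((U + W * Y) * s) = (U + W * Y) * (X ^ M * s) := by ring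
      _ = X ^ M * (X - C π) ^ M * V := hprod
      _ = X ^ M * ((X - C π) ^ M * V) := by ring
  have h5 : Pr v (U + W * Y) (M - 1) (v ((M : K) * π)) := by
    rw [← pr_mul hr hs1 hs0, h3, pr_mul hr hV hV0]
    exact pr_binom hM hπ hMK hj
  have h6 : Pr v (W * Y) (M - 1) (v ((M : K) * π)) := by
    have h7 : ∀ n, n < M → v (coeff n (W * Y)) = v (coeff n (U + W * Y)) := by
      intro n hn
      have h8 := hX n hn
      rw [map_sub, sub_eq_zero] at h8
      have h9 : coeff n (U + W * Y) = 2 * coeff n (W * Y) := by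
        rw [map_add, h8]
        ring
      rw [h9, Valuation.map_mul, h2, one_mul]
    exact ⟨fun n hn => by rw [h7 n (by omega)]; exact h5.1 n hn, by
      rw [h7 _ (by omega)]; exact h5.2⟩
  exact (pr_mul hr hY hY0).1 h6

end GJ
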