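import Pool.Agent.H88.GJ.CoreA
import Pool.Agent.H10.GJ.Restr
import Pool.Agent.H84.GJ.Fro
import Pool.Agent.H84.GJ.Net

/-!
# GJ, Quad: a point of a Galois stable set of at most two points

The abscissa of an integral point of a set of at most two points which is stable under the automorphisms over `E` is a
root of a quadratic polynomial with integral coefficients in `E`.
-/

set_option autoImplicit false

namespace GJ

open Polynomial HK

variable {p : ℕ} [hp : Fact p.Prime] {ι : AK →+* PadicAlgCl p} {v : Valuation AK NNReal}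

theorem quad (hv : IsVal p ι v) (E : IntermediateField ℚ_[p] (PadicAlgCl p))
    (S : Multiset (AK × AK)) (hc : Multiset.card S ≤ 2) (T : AK × AK) (hT : T ∈ S)
    (h1 : v T.1 ≤ 1)
    (hfix : ∀ s : PadicAlgCl p ≃ₐ[ℚ_[p]] PadicAlgCl p, (∀ y ∈ E, s y = y) →
      ∀ s0 : AK ≃ₐ[ℚ] AK, (∀ x, ι (s0 x) = s (ι x)) → S.map (Prod.map s0 s0) = S) :
    ∃ e1 ∈ E, ∃ e2 ∈ E, ‖e1‖ ≤ 1 ∧ ‖e2‖ ≤ 1 ∧ ι T.1 ^ 2 - e1 * ι T.1 + e2 = 0 := by
  have hx : ‖ι T.1‖ ≤ 1 := (val_le_one hv).1 h1
  -- if the abscissa is fixed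
  have hone : (∀ s : PadicAlgCl p ≃ₐ[ℚ_[p]] PadicAlgCl p, (∀ y ∈ E, s y = y) →
      s (ι T.1) = ι T.1) →
      ∃ e1 ∈ E, ∃ e2 ∈ E, ‖e1‖ ≤ 1 ∧ ‖e2‖ ≤ 1 ∧ ι T.1 ^ 2 - e1 * ι T.1 + e2 = 0 := by
    intro h
    refine ⟨ι T.1, fix_mem p E _ h, 0, E.zero_mem, hx, ?_, ?_⟩
    · rw [norm_zero]
      exact zero_le_one
    · ring
  obtain ⟨S', rfl⟩ := Multiset.exists_cons_of_mem hT
  rw [Multiset.card_cons] at hc
  -- the abscissae as a multiset
  have hab : ∀ s : PadicAlgCl p ≃ₐ[ℚ_[p]] PadicAlgCl p, (∀ y ∈ E, s y = y) →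
      s (ι T.1) ::ₘ S'.map (fun P => s (ι P.1)) = ι T.1 ::ₘ S'.map (fun P => ι P.1) := by
    intro s hs
    obtain ⟨s0, hs0⟩ := restr p ι s
    have h2 := hfix s hs s0 hs0
    have h3 := congrArg (Multiset.map fun P : AK × AK => ι P.1) h2
    rw [Multiset.map_map, Multiset.map_cons, Multiset.map_cons] at h3
    rw [← h3]
    congr 1
    · exact (hs0 _).symm
    · exact Multiset.map_congr rfl fun P _ => (hs0 _).symm
  rcases Nat.lt_or_ge (Multiset.card S') 1 with h0 | h0
  · have hS' : S' = 0 := Multiset.card_eq_zero.1 (by omega)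
    subst hS'
    apply hone
    intro s hs
    have h2 := hab s hs
    rw [Multiset.map_zero, Multiset.map_zero] at h2
    exact Multiset.singleton_inj.1 h2
  · obtain ⟨U, rfl⟩ := Multiset.card_eq_one.1 (show Multiset.card S' = 1 by omega)
    have hcases : ∀ s : PadicAlgCl p ≃ₐ[ℚ_[p]] PadicAlgCl p, (∀ y ∈ E, s y = y) →
        (s (ι T.1) = ι T.1 ∧ s (ι U.1) = ι U.1) ∨ (s (ι T.1) = ι U.1 ∧ s (ι U.1) = ι T.1) := by
      intro s hs
      have h2 := hab s hs
      rw [Multiset.map_singleton, Multiset.map_singleton] at h2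
      rcases Multiset.cons_eq_cons.1 h2 with ⟨h4, h5⟩ | ⟨_, W, h4, h5⟩
      · exact Or.inl ⟨h4, Multiset.singleton_inj.1 h5⟩
      · right
        have hW : W = 0 := by
          have h6 := congrArg Multiset.card h4
          rw [Multiset.card_singleton, Multiset.card_cons] at h6
          exact Multiset.card_eq_zero.1 (by omega)
        subst hW
        exact ⟨(Multiset.singleton_inj.1 h5).symm, Multiset.singleton_inj.1 h4⟩
    by_cases hU : ‖ι U.1‖ ≤ 1
    · refine ⟨ι T.1 + ι U.1, fix_mem p E _ ?_, ι T.1 * ι U.1, fix_mem p E _ ?_, ?_, ?_, ?_⟩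
      · intro s hs
        rw [map_add]
        rcases hcases s hs with ⟨h4, h5⟩ | ⟨h4, h5⟩
        · rw [h4, h5]
        · rw [h4, h5, add_comm]
      · intro s hs
        rw [map_mul]
        rcases hcases s hs with ⟨h4, h5⟩ | ⟨h4, h5⟩
        · rw [h4, h5]
        · rw [h4, h5, mul_comm]
      · exact (na _ _).trans (max_le hx hU)
      · rw [norm_mul]
        exact mul_le_one₀ hx (norm_nonneg _) hU
      · ring
    · apply hone
      intro s hs
      rcases hcases s hs with ⟨h4, _⟩ | ⟨h4, _⟩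
      · exact h4
      · exfalso
        apply hU
        rw [← h4, norm_gal]
        exact hx

end GJ
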